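import Pool.Agent.H65.NV.PTargets

/-!
# Partition of unity for the squares of the units (PUN)
-/

set_option autoImplicit false

open MeasureTheory Set Filter NumberField NumberField.InfinitePlace
open scoped Real

namespace Pool.Agent.H35.NVP_PUN

open Pool.Agent.H65.CM4 (Pl dg nm rv)
open Pool.Agent.H89.NV (em GW)
open Pool.Agent.H65.NV (T_UCO T_PU0 T_EMS bal thb)

section

variable {k : Type} [Field k] [NumberField k] [IsTotallyReal k]

variable (k) in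
/-- the squares of the units -/
abbrev Ga : Type := (powMonoidHom 2 : (𝓞 k)ˣ →* (𝓞 k)ˣ).range

/-- the embedding of a square of a unit -/
noncomputable def aa (γ : Ga k) : Pl k → ℝ := em ((γ.1 : (𝓞 k)ˣ) : 𝓞 k)

/-- the sum of the bump functions -/
noncomputable def SS (R : ℝ) (u : Pl k → ℝ) : ℝ := ∑' γ : Ga k, thb R (fun v => aa γ v * u v)

/-- the function of the partition of unity -/
noncomputable def Ps (R : ℝ) (u : Pl k → ℝ) : ℝ := thb R u / SS R u

/-- the facts on the units -/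
structure Dat (R : ℝ) (F : Finset (Ga k)) : Prop where
  one : 1 ≤ R
  ex : ∀ u : Pl k → ℝ, (∀ v, 0 < u v) → ∃ γ : Ga k, bal R (fun v => aa γ v * u v)
  fin : ∀ (u : Pl k → ℝ) (γ : Ga k), (∀ v, 0 < u v) → bal (4 * R) u →
    bal (4 * R) (fun v => aa γ v * u v) → γ ∈ F

theorem aa_mul (hE : T_EMS k) (γ δ : Ga k) (v : Pl k) : aa (γ * δ) v = aa γ v * aa δ v := by
  have h := (hE.1 ((γ.1 : (𝓞 k)ˣ) : 𝓞 k) ((δ.1 : (𝓞 k)ˣ) : 𝓞 k)).2.1
  have e : (((γ * δ : Ga k).1 : (𝓞 k)ˣ) : 𝓞 k) =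
      ((γ.1 : (𝓞 k)ˣ) : 𝓞 k) * ((δ.1 : (𝓞 k)ˣ) : 𝓞 k) := by
    push_cast
    rfl
  unfold aa
  rw [e, h, Pi.mul_apply]

theorem aa_one (hE : T_EMS k) (v : Pl k) : aa (1 : Ga k) v = 1 := by
  unfold aa
  have e : (((1 : Ga k).1 : (𝓞 k)ˣ) : 𝓞 k) = 1 := by
    push_cast
    rfl
  rw [e, hE.2.2.1, Pi.one_apply]

theorem em_sq (hE : T_EMS k) (x : 𝓞 k) (v : Pl k) : em (x ^ 2) v = em x v ^ 2 := by
  rw [sq, (hE.1 x x).2.1, Pi.mul_apply, sq]

theorem aa_pos (hE : T_EMS k) (γ : Ga k) (v : Pl k) : 0 < aa γ v := by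
  obtain ⟨γ, ε, hε⟩ := γ
  have e : ((γ : (𝓞 k)ˣ) : 𝓞 k) = (ε : 𝓞 k) ^ 2 := by
    rw [← hε]
    simp
  unfold aa
  show 0 < em ((γ : (𝓞 k)ˣ) : 𝓞 k) v
  rw [e, em_sq hE]
  have h0 : (ε : 𝓞 k) ≠ 0 := ε.ne_zero
  have := hE.2.2.2.2.2.1 (ε : 𝓞 k) v h0
  positivity

theorem dat (hE : T_EMS k) (hU : T_UCO k) : ∃ (R : ℝ) (F : Finset (Ga k)), Dat R F := by
  classical
  obtain ⟨⟨R, hR1, hR⟩, hF⟩ := hU
  obtain ⟨F, hF⟩ := hF (4 * R) (by linarith)
  have hinj : Function.Injective (fun γ : Ga k => ((γ.1 : (𝓞 k)ˣ) : 𝓞 k)) := by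
    intro γ δ h
    exact Subtype.ext (Units.ext h)
  have hfin : {γ : Ga k | ((γ.1 : (𝓞 k)ˣ) : 𝓞 k) ∈ F}.Finite :=
    F.finite_toSet.preimage hinj.injOn
  refine ⟨R, hfin.toFinset, hR1, ?_, ?_⟩
  · intro u hu
    obtain ⟨ε, hε⟩ := hR u hu
    refine ⟨⟨ε ^ 2, ε, rfl⟩, ?_⟩
    have e : (fun v => aa (⟨ε ^ 2, ε, rfl⟩ : Ga k) v * u v) =
        fun v => em ((ε : 𝓞 k) ^ 2) v * u v := by
      unfold aa
      rw [Units.val_pow_eq_pow_val]
    rw [e]
    exact hε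
  · intro u γ hu hb hb'
    rw [Set.Finite.mem_toFinset]
    obtain ⟨γ, ε, hε⟩ := γ
    have e : ((γ : (𝓞 k)ˣ) : 𝓞 k) = (ε : 𝓞 k) ^ 2 := by
      rw [← hε]
      simp
    show ((γ : (𝓞 k)ˣ) : 𝓞 k) ∈ F
    rw [e]
    refine hF u ε hu hb ?_
    rw [← e]
    exact hb'

variable {R : ℝ} {F : Finset (Ga k)}

theorem F1 (hP : T_PU0 k) (hd : Dat R F) {u : Pl k → ℝ} (hu : ∀ v, 0 < u v)
    (hb : bal (4 * R) u) {γ : Ga k} (h : γ ∉ F) : thb R (fun v => aa γ v * u v) = 0 := by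
  by_contra h0
  obtain ⟨h1, h2⟩ := (hP R hd.one).2.2.1 _ h0
  refine h (hd.fin u γ hu hb ?_)
  intro v w
  refine (h2 v w).trans ?_
  refine mul_le_mul_of_nonneg_right ?_ (h1 w).le
  linarith [hd.one]

theorem F2 (hP : T_PU0 k) (hd : Dat R F) {u : Pl k → ℝ} (hu : ∀ v, 0 < u v)
    (hb : bal (4 * R) u) : SS R u = ∑ γ ∈ F, thb R (fun v => aa γ v * u v) := by
  unfold SS
  exact tsum_eq_sum fun γ hγ => F1 hP hd hu hb hγ

theorem F3 (hE : T_EMS k) (δ : Ga k) (u : Pl k → ℝ) :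
    SS R (fun v => aa δ v * u v) = SS R u := by
  unfold SS
  rw [← (Equiv.mulRight δ).tsum_eq (fun γ : Ga k => thb R (fun v => aa γ v * u v))]
  refine tsum_congr fun γ => ?_
  congr 1
  ext v
  rw [Equiv.coe_mulRight, aa_mul hE, mul_assoc]

theorem bal4 (hd : Dat R F) {u : Pl k → ℝ} (hu : ∀ v, 0 < u v) {c : ℝ} (hc : c ≤ 4)
    (h : bal (c * R) u) : bal (4 * R) u := by
  intro v w
  refine (h v w).trans (mul_le_mul_of_nonneg_right ?_ (hu w).le)
  exact mul_le_mul_of_nonneg_right hc (by linarith [hd.one])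

theorem F5' (hE : T_EMS k) (hP : T_PU0 k) (hd : Dat R F) {u : Pl k → ℝ} (hu : ∀ v, 0 < u v)
    (hb : bal (4 * R) u) : thb R u ≤ SS R u := by
  classical
  have e1 : (fun v => aa (1 : Ga k) v * u v) = u := by
    ext v
    rw [aa_one hE, one_mul]
  by_cases h1 : (1 : Ga k) ∈ F
  · rw [F2 hP hd hu hb]
    have h2 := Finset.single_le_sum (f := fun γ : Ga k => thb R (fun v => aa γ v * u v))
      (fun γ _ => ((hP R hd.one).1 _).1) h1
    simp only [e1] at h2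
    exact h2
  · have h3 := F1 hP hd hu hb h1
    rw [e1] at h3
    rw [h3, F2 hP hd hu hb]
    exact Finset.sum_nonneg fun γ _ => ((hP R hd.one).1 _).1

theorem F4 (hE : T_EMS k) (hP : T_PU0 k) (hd : Dat R F) {u : Pl k → ℝ} (hu : ∀ v, 0 < u v) :
    1 ≤ SS R u := by
  obtain ⟨δ, hδ⟩ := hd.ex u hu
  have hu' : ∀ v, 0 < aa δ v * u v := fun v => mul_pos (aa_pos hE δ v) (hu v)
  have h1 : bal (4 * R) (fun v => aa δ v * u v) := by
    refine bal4 hd hu' (c := 1) (by norm_num) ?_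
    rw [one_mul]
    exact hδ
  have h2 := F5' hE hP hd hu' h1
  rw [F3 hE, (hP R hd.one).2.1 _ hu' hδ] at h2
  exact h2

theorem Ps_bd (hE : T_EMS k) (hP : T_PU0 k) (hd : Dat R F) (u : Pl k → ℝ) :
    0 ≤ Ps R u ∧ Ps R u ≤ 1 := by
  unfold Ps
  by_cases h0 : thb R u = 0
  · rw [h0, zero_div]
    exact ⟨le_rfl, zero_le_one⟩
  · obtain ⟨h1, h2⟩ := (hP R hd.one).2.2.1 _ h0
    have h3 := F4 hE hP hd h1
    have h4 := F5' hE hP hd h1 (bal4 hd h1 (c := 2) (by norm_num) h2)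
    have h5 := ((hP R hd.one).1 u).1
    exact ⟨div_nonneg h5 (by linarith), (div_le_one (by linarith)).2 h4⟩

theorem Ps_hom (hP : T_PU0 k) (hd : Dat R F) (u : Pl k → ℝ) (t : ℝ) (ht : 0 < t) :
    Ps R (fun v => t * u v) = Ps R u := by
  unfold Ps SS
  rw [(hP R hd.one).2.2.2.1 u t ht]
  congr 1
  refine tsum_congr fun γ => ?_
  rw [← (hP R hd.one).2.2.2.1 (fun v => aa γ v * u v) t ht]
  congr 1
  ext v
  ring

open Classical in
theorem Ps_sum (hE : T_EMS k) (hP : T_PU0 k) (hd : Dat R F) (u : Pl k → ℝ)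
    (hu : ∀ v, 0 < u v) : ∃ s : Finset (𝓞 k), (∀ x : 𝓞 k, x ∈ s ↔
        (∃ ε : (𝓞 k)ˣ, x = (ε : 𝓞 k) ^ 2) ∧ Ps R (fun v => em x v * u v) ≠ 0) ∧
      ∑ x ∈ s, Ps R (fun v => em x v * u v) = 1 := by
  obtain ⟨δ, hδ⟩ := hd.ex u hu
  have hu' : ∀ v, 0 < aa δ v * u v := fun v => mul_pos (aa_pos hE δ v) (hu v)
  have hb' : bal (4 * R) (fun v => aa δ v * u v) := by
    refine bal4 hd hu' (c := 1) (by norm_num) ?_
    rw [one_mul]
    exact hδ
  have hS := F4 hE hP hd hu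
  have hS0 : SS R u ≠ 0 := by linarith
  have hPs : ∀ γ : Ga k, Ps R (fun v => aa γ v * u v) =
      thb R (fun v => aa γ v * u v) / SS R u := by
    intro γ
    unfold Ps
    rw [F3 hE]
  -- the finite set
  set s₀ : Finset (Ga k) := (F.image (fun γ => γ * δ)).filter
    (fun γ => thb R (fun v => aa γ v * u v) ≠ 0) with hs₀
  have hmem : ∀ γ : Ga k, γ ∈ s₀ ↔ thb R (fun v => aa γ v * u v) ≠ 0 := by
    intro γ
    rw [hs₀, Finset.mem_filter]
    refine ⟨fun h => h.2, fun h => ⟨?_, h⟩⟩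
    rw [Finset.mem_image]
    refine ⟨γ * δ⁻¹, ?_, by group⟩
    by_contra h1
    have h2 := F1 hP hd hu' hb' h1
    apply h
    rw [← h2]
    congr 1
    ext v
    rw [← mul_assoc, ← aa_mul hE, inv_mul_cancel_right]
  have hinj : Function.Injective (fun γ : Ga k => ((γ.1 : (𝓞 k)ˣ) : 𝓞 k)) := by
    intro γ δ h
    exact Subtype.ext (Units.ext h)
  refine ⟨s₀.image (fun γ : Ga k => ((γ.1 : (𝓞 k)ˣ) : 𝓞 k)), ?_, ?_⟩
  · intro x
    rw [Finset.mem_image]
    constructor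
    · rintro ⟨γ, hγ, rfl⟩
      rw [hmem] at hγ
      refine ⟨?_, ?_⟩
      · obtain ⟨γ, ε, hε⟩ := γ
        refine ⟨ε, ?_⟩
        show ((γ : (𝓞 k)ˣ) : 𝓞 k) = (ε : 𝓞 k) ^ 2
        rw [← hε]
        simp
      · have h1 := hPs γ
        unfold aa at h1 hγ
        rw [h1]
        exact div_ne_zero hγ hS0
    · rintro ⟨⟨ε, rfl⟩, h⟩
      refine ⟨⟨ε ^ 2, ε, rfl⟩, ?_, ?_⟩
      · rw [hmem]
        intro h0
        apply h
        have h1 := hPs ⟨ε ^ 2, ε, rfl⟩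
        rw [h0, zero_div] at h1
        unfold aa at h1
        rw [← h1]
        congr 1
      · show ((ε ^ 2 : (𝓞 k)ˣ) : 𝓞 k) = (ε : 𝓞 k) ^ 2
        rw [Units.val_pow_eq_pow_val]
  · rw [Finset.sum_image fun a _ b _ h => hinj h]
    have h1 : ∀ γ ∈ s₀, Ps R (fun v => em ((γ.1 : (𝓞 k)ˣ) : 𝓞 k) v * u v) =
        thb R (fun v => aa γ v * u v) / SS R u := fun γ _ => hPs γ
    rw [Finset.sum_congr rfl h1, ← Finset.sum_div]
    have h2 : SS R u = ∑ γ ∈ s₀, thb R (fun v => aa γ v * u v) := by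
      unfold SS
      refine tsum_eq_sum fun γ hγ => ?_
      by_contra h3
      exact hγ ((hmem γ).2 h3)
    rw [← h2, div_self hS0]

theorem thb_at (hP : T_PU0 k) (hd : Dat R F) {u : Pl k → ℝ} (hu : ∀ v, 0 < u v) :
    ContDiffAt ℝ (⊤ : ℕ∞) (thb (k := k) R) u := by
  have h1 := (hP R hd.one).2.2.2.2.1
  refine h1.contDiffAt ?_
  have h2 : IsOpen {u : Pl k → ℝ | ∀ v, 0 < u v} := by
    have e : {u : Pl k → ℝ | ∀ v, 0 < u v} = ⋂ v, {u | 0 < u v} := by
      ext u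
      simp
    rw [e]
    exact isOpen_iInter_of_finite fun v => isOpen_lt continuous_const (continuous_apply v)
  exact h2.mem_nhds hu

theorem smooth (hE : T_EMS k) (hP : T_PU0 k) (hd : Dat R F) (w : ℝ → ℝ) (α : ℝ) (hα : 0 < α)
    (hw : ContDiff ℝ (⊤ : ℕ∞) w) (hs : ∀ x, x ∉ Icc α (1 / α) → w x = 0) :
    ∃ η : ℝ, GW (k := k) η (fun u => w (∏ v, u v) * Ps R u) := by
  obtain ⟨η, hη, h6⟩ := (hP R hd.one).2.2.2.2.2 α hα
  have hsup : ∀ u : Pl k → ℝ, (∃ v, u v ∉ Icc η (1 / η)) → w (∏ v, u v) * Ps R u = 0 := by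
    rintro u ⟨v, hv⟩
    by_contra h0
    have h1 : w (∏ v, u v) ≠ 0 := fun h => h0 (by rw [h, zero_mul])
    have h2 : Ps R u ≠ 0 := fun h => h0 (by rw [h, mul_zero])
    have h3 : thb R u ≠ 0 := fun h => h2 (by unfold Ps; rw [h, zero_div])
    obtain ⟨h4, h5⟩ := (hP R hd.one).2.2.1 _ h3
    refine hv (h6 u h4 h5 ?_ v)
    by_contra h7
    exact h1 (hs _ h7)
  refine ⟨η, hη, ?_, hsup⟩
  rw [contDiff_iff_contDiffAt]
  intro u₀
  have hcw : ContDiff ℝ (⊤ : ℕ∞) (fun u : Pl k → ℝ => w (∏ v, u v)) :=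
    hw.comp (contDiff_prod fun v _ => contDiff_apply ℝ ℝ v)
  by_cases hpos : ∀ v, 0 < u₀ v
  · by_cases hbal : ∀ v w, u₀ v < 4 * R * u₀ w
    · -- case 1
      refine hcw.contDiffAt.mul ?_
      have hS : ContDiffAt ℝ (⊤ : ℕ∞)
          (fun u : Pl k → ℝ => ∑ γ ∈ F, thb R (fun v => aa γ v * u v)) u₀ := by
        refine ContDiffAt.sum fun γ _ => ?_
        have h1 : ContDiffAt ℝ (⊤ : ℕ∞) (thb (k := k) R) (fun v => aa γ v * u₀ v) :=
          thb_at hP hd fun v => mul_pos (aa_pos hE γ v) (hpos v)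
        have h2 : ContDiffAt ℝ (⊤ : ℕ∞) (fun u : Pl k → ℝ => fun v => aa γ v * u v) u₀ := by
          refine contDiffAt_pi.2 fun v => ?_
          exact contDiffAt_const.mul (contDiff_apply ℝ ℝ v).contDiffAt
        exact ContDiffAt.comp u₀ h1 h2
      have hne : (∑ γ ∈ F, thb R (fun v => aa γ v * u₀ v)) ≠ 0 := by
        have h3 := F4 hE hP hd hpos
        rw [F2 hP hd hpos (fun v w => (hbal v w).le)] at h3
        linarith
      have h4 := (thb_at hP hd hpos).div hS hne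
      refine h4.congr_of_eventuallyEq ?_
      have o1 : ∀ᶠ u : Pl k → ℝ in nhds u₀, ∀ v, 0 < u v := by
        rw [eventually_all]
        intro v
        exact (isOpen_lt continuous_const (continuous_apply v)).mem_nhds (hpos v)
      have o2 : ∀ᶠ u : Pl k → ℝ in nhds u₀, ∀ v w, u v < 4 * R * u w := by
        rw [eventually_all]
        intro v
        rw [eventually_all]
        intro w
        exact (isOpen_lt (continuous_apply v) (continuous_const.mul (continuous_apply w))).mem_nhds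
          (hbal v w)
      filter_upwards [o1, o2] with u hu hb
      unfold Ps
      rw [F2 hP hd hu fun v w => (hb v w).le]
      rfl
    · -- case 2
      push Not at hbal
      obtain ⟨v, v', hv⟩ := hbal
      refine (contDiffAt_const (c := (0 : ℝ))).congr_of_eventuallyEq ?_
      have o1 : ∀ᶠ u : Pl k → ℝ in nhds u₀, 2 * R * u v' < u v := by
        refine (isOpen_lt (continuous_const.mul (continuous_apply v'))
          (continuous_apply v)).mem_nhds ?_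
        show 2 * R * u₀ v' < u₀ v
        have := mul_pos (show 0 < R by linarith [hd.one]) (hpos v')
        linarith
      filter_upwards [o1] with u hu
      have h1 : thb R u = 0 := by
        by_contra h0
        obtain ⟨h4, h5⟩ := (hP R hd.one).2.2.1 _ h0
        linarith [h5 v v']
      unfold Ps
      rw [h1, zero_div, mul_zero]
  · -- case 3
    push Not at hpos
    obtain ⟨v, hv⟩ := hpos
    refine (contDiffAt_const (c := (0 : ℝ))).congr_of_eventuallyEq ?_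
    have o1 : ∀ᶠ u : Pl k → ℝ in nhds u₀, u v < η := by
      refine (isOpen_lt (continuous_apply v) continuous_const).mem_nhds ?_
      show u₀ v < η
      linarith
    filter_upwards [o1] with u hu
    refine hsup u ⟨v, fun h => ?_⟩
    linarith [h.1]

end

/-- (PUN) partition of unity for the squares of the units, and weights of the norm. -/
theorem pf_PUN (k : Type) [Field k] [NumberField k] [IsTotallyReal k] (hUCO : T_UCO k)
    (hPU0 : T_PU0 k) (hEMS : T_EMS k) : Pool.Agent.H89.NV.T_PUN k := by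
  obtain ⟨R, F, hd⟩ := dat hEMS hUCO
  refine ⟨Ps R, Ps_bd hEMS hPU0 hd, fun u hu => ⟨Ps_sum hEMS hPU0 hd u hu, ?_⟩, ?_⟩
  · intro u t ht
    exact Ps_hom hPU0 hd u t ht
  · intro w α hα hw hs
    exact smooth hEMS hPU0 hd w α hα hw hs

end Pool.Agent.H35.NVP_PUN
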